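import Pool.Agent.W668.Uni.Stmts

/-!
# UNI-OPS: existence of the integral operators and of the jet space maps
-/

set_option autoImplicit false

open Set MeasureTheory
open scoped ContDiff Topology

namespace Pool.Agent.W287.UniOps

open Pool.Agent.W668.Uni

noncomputable section

/-- projection to `[0,1]` -/
def pj (u : ℝ) : I1 := Set.projIcc (0 : ℝ) 1 zero_le_one u

theorem continuous_pj : Continuous pj :=
  continuous_projIcc (h := zero_le_one)

theorem pj_coe {u : ℝ} (h0 : 0 ≤ u) (h1 : u ≤ 1) : ((pj u : I1) : ℝ) = u := by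
  unfold pj
  rw [Set.projIcc_of_mem (h := zero_le_one) ⟨h0, h1⟩]

/-- projection to `[0,π/2]` -/
def pt (t : ℝ) : Th := Set.projIcc (0 : ℝ) (Real.pi / 2) Th_le t

theorem continuous_pt : Continuous pt :=
  continuous_projIcc (h := Th_le)

theorem pt_coe {u : ℝ} (h0 : 0 ≤ u) (h1 : u ≤ Real.pi / 2) : ((pt u : Th) : ℝ) = u := by
  unfold pt
  rw [Set.projIcc_of_mem (h := Th_le) ⟨h0, h1⟩]

theorem evX_eq (f : X) (x : ℝ) : evX f x = f (pj x) := rfl

theorem evY_eq (h : Y) (y t : ℝ) : evY h y t = h (pj y, pt t) := rfl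

theorem evX_coe (f : X) (z : I1) : f z = evX f z := by
  unfold evX
  rw [Set.projIcc_val]

theorem evY_coe (h : Y) (z : I1 × Th) : h z = evY h z.1 z.2 := by
  unfold evY
  rw [Set.projIcc_val, Set.projIcc_val]

/-- the general integral operator -/
def intOp {Z W' : Type*} [TopologicalSpace Z] [CompactSpace Z] [FirstCountableTopology Z]
    [TopologicalSpace W'] [CompactSpace W'] (k : C(Z × I1, ℝ)) (m : C(Z × I1, W')) :
    C(W', ℝ) →L[ℝ] C(Z, ℝ) :=
  LinearMap.mkContinuous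
    { toFun := fun h => ⟨fun z => ∫ u in (0 : ℝ)..1, k (z, pj u) * h (m (z, pj u)), by
        refine intervalIntegral.continuous_parametric_intervalIntegral_of_continuous' ?_ 0 1
        have h1 : Continuous (fun p : Z × ℝ => (p.1, pj p.2)) :=
          continuous_fst.prodMk (continuous_pj.comp continuous_snd)
        exact (k.continuous.comp h1).mul (h.continuous.comp (m.continuous.comp h1))⟩
      map_add' := by
        intro f g
        ext z
        have hc : ∀ h : C(W', ℝ), Continuous (fun u : ℝ => k (z, pj u) * h (m (z, pj u))) := by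
          intro h
          have h1 : Continuous (fun u : ℝ => (z, pj u)) :=
            continuous_const.prodMk continuous_pj
          exact (k.continuous.comp h1).mul (h.continuous.comp (m.continuous.comp h1))
        simp only [ContinuousMap.coe_mk, ContinuousMap.add_apply, mul_add]
        exact intervalIntegral.integral_add ((hc f).intervalIntegrable _ _)
          ((hc g).intervalIntegrable _ _)
      map_smul' := by
        intro r f
        ext z
        simp only [ContinuousMap.coe_mk, ContinuousMap.smul_apply, smul_eq_mul,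
          RingHom.id_apply]
        rw [← intervalIntegral.integral_const_mul]
        refine intervalIntegral.integral_congr fun u _ => ?_
        ring } ‖k‖ (by
      intro h
      refine (ContinuousMap.norm_le _ (by positivity)).2 fun z => ?_
      have h1 := intervalIntegral.norm_integral_le_of_norm_le_const (a := (0 : ℝ)) (b := 1)
        (f := fun u : ℝ => k (z, pj u) * h (m (z, pj u))) (C := ‖k‖ * ‖h‖) (by
          intro u _
          rw [norm_mul]
          exact mul_le_mul (ContinuousMap.norm_coe_le_norm k _)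
            (ContinuousMap.norm_coe_le_norm h _) (norm_nonneg _) (norm_nonneg _))
      simpa using h1)

theorem intOp_apply {Z W' : Type*} [TopologicalSpace Z] [CompactSpace Z]
    [FirstCountableTopology Z] [TopologicalSpace W'] [CompactSpace W'] (k : C(Z × I1, ℝ))
    (m : C(Z × I1, W')) (h : C(W', ℝ)) (z : Z) :
    intOp k m h z = ∫ u in (0 : ℝ)..1, k (z, pj u) * h (m (z, pj u)) := rfl

/-! ### the maps -/

/-- `(y,t) ↦ y cos t` -/
def mLift : C(I1 × Th, I1) :=
  ⟨fun z => ⟨z.1 * Real.cos z.2, by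
    have h1 : 0 ≤ Real.cos z.2 :=
      Real.cos_nonneg_of_neg_pi_div_two_le_of_le (by linarith [z.2.2.1, Real.pi_pos]) z.2.2.2
    refine ⟨mul_nonneg z.1.2.1 h1, ?_⟩
    calc (z.1 : ℝ) * Real.cos z.2 ≤ 1 * 1 :=
          mul_le_mul z.1.2.2 (Real.cos_le_one _) h1 zero_le_one
      _ = 1 := one_mul 1⟩, by fun_prop⟩

/-- `((y,t),u) ↦ (y, u t)` -/
def mJ : C((I1 × Th) × I1, I1 × Th) :=
  ⟨fun z => (z.1.1, ⟨z.2 * z.1.2, by
    refine ⟨mul_nonneg z.2.2.1 z.1.2.2.1, ?_⟩
    calc (z.2 : ℝ) * z.1.2 ≤ 1 * (Real.pi / 2) :=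
          mul_le_mul z.2.2.2 z.1.2.2.2 z.1.2.2.1 zero_le_one
      _ = _ := one_mul _⟩), by fun_prop⟩

/-- `((y,t),u) ↦ (y, t + u (π/2 - t))` -/
def mK : C((I1 × Th) × I1, I1 × Th) :=
  ⟨fun z => (z.1.1, ⟨z.1.2 + (Real.pi / 2 - z.1.2) * z.2, by
    have h1 : 0 ≤ Real.pi / 2 - z.1.2 := sub_nonneg.2 z.1.2.2.2
    refine ⟨add_nonneg z.1.2.2.1 (mul_nonneg h1 z.2.2.1), ?_⟩
    have h2 : (Real.pi / 2 - z.1.2) * z.2 ≤ (Real.pi / 2 - z.1.2) * 1 :=
      mul_le_mul_of_nonneg_left z.2.2.2 h1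
    linarith⟩), by fun_prop⟩

/-- `(y,u) ↦ (y, u π/2)` -/
def mW : C(I1 × I1, I1 × Th) :=
  ⟨fun z => (z.1, ⟨z.2 * (Real.pi / 2), by
    refine ⟨mul_nonneg z.2.2.1 Th_le, ?_⟩
    calc (z.2 : ℝ) * (Real.pi / 2) ≤ 1 * (Real.pi / 2) :=
          mul_le_mul_of_nonneg_right z.2.2.2 Th_le
      _ = _ := one_mul _⟩), by fun_prop⟩

/-- `(x,u) ↦ x u` -/
def mb : C(I1 × I1, I1) :=
  ⟨fun z => ⟨z.1 * z.2, by
    refine ⟨mul_nonneg z.1.2.1 z.2.2.1, ?_⟩
    calc (z.1 : ℝ) * z.2 ≤ 1 * 1 := mul_le_mul z.1.2.2 z.2.2.2 z.2.2.1 zero_le_one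
      _ = _ := one_mul _⟩, by fun_prop⟩

/-- `(x,u) ↦ x sin (u π/2)` -/
def mQ : C(I1 × I1, I1) :=
  ⟨fun z => ⟨z.1 * Real.sin (z.2 * (Real.pi / 2)), by
    have h0 : 0 ≤ Real.sin (z.2 * (Real.pi / 2)) := by
      refine Real.sin_nonneg_of_nonneg_of_le_pi (mul_nonneg z.2.2.1 Th_le) ?_
      have := mul_le_mul_of_nonneg_right z.2.2.2 Th_le
      linarith [Real.pi_pos]
    refine ⟨mul_nonneg z.1.2.1 h0, ?_⟩
    calc (z.1 : ℝ) * Real.sin (z.2 * (Real.pi / 2)) ≤ 1 * 1 :=
          mul_le_mul z.1.2.2 (Real.sin_le_one _) h0 zero_le_one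
      _ = _ := one_mul _⟩, by fun_prop⟩

/-! ### sinc -/

theorem sinc_pos_of_mem {t : ℝ} (h0 : 0 ≤ t) (h1 : t ≤ Real.pi / 2) : 0 < Real.sinc t := by
  rcases eq_or_lt_of_le h0 with h | h
  · rw [← h, Real.sinc_zero]; exact one_pos
  · rw [Real.sinc_of_ne_zero h.ne']
    exact div_pos (Real.sin_pos_of_pos_of_lt_pi h (by linarith [Real.pi_pos])) h

theorem mul_sinc (t : ℝ) : t * Real.sinc t = Real.sin t := by
  rcases eq_or_ne t 0 with h | h
  · simp [h]
  · rw [Real.sinc_of_ne_zero h]; field_simp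

/-- the kernel of `S3` -/
def kS : C((I1 × Th) × I1, ℝ) :=
  ⟨fun z => (z.2 : ℝ) ^ 2 * Real.sinc (z.2 * z.1.2) ^ 2 / Real.sinc z.1.2 ^ 3, by
    refine Continuous.div ?_ ?_ fun z => ?_
    · exact ((continuous_subtype_val.comp continuous_snd).pow 2).mul
        ((Real.continuous_sinc.comp (by fun_prop)).pow 2)
    · exact (Real.continuous_sinc.comp (by fun_prop)).pow 3
    · exact pow_ne_zero _ (sinc_pos_of_mem z.1.2.2.1 z.1.2.2.2).ne'⟩

/-- the kernel of `J` -/
def kJ : C((I1 × Th) × I1, ℝ) := ⟨fun z => (z.1.2 : ℝ), by fun_prop⟩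

/-- the kernel of `K` -/
def kK : C((I1 × Th) × I1, ℝ) := ⟨fun z => Real.pi / 2 - (z.1.2 : ℝ), by fun_prop⟩

/-- the kernel of `W` -/
def kW : C(I1 × I1, ℝ) :=
  ⟨fun z => Real.pi / 2 * Real.sin (z.2 * (Real.pi / 2)) ^ 2, by fun_prop⟩

/-- the kernel of `b` -/
def kb : C(I1 × I1, ℝ) := ⟨fun z => (z.2 : ℝ), by fun_prop⟩

/-- the kernel of `Q` -/
def kQ : C(I1 × I1, ℝ) :=
  ⟨fun z => Real.pi / 2 * Real.sin (z.2 * (Real.pi / 2)) ^ 3, by fun_prop⟩

/-! ### the characterisations -/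

theorem lift_ev (f : X) (y t : ℝ) (h0 : 0 ≤ y) (h1 : y ≤ 1) (h2 : 0 ≤ t)
    (h3 : t ≤ Real.pi / 2) : evY (compL mLift f) y t = evX f (y * Real.cos t) := by
  have h : compL mLift f (pj y, pt t) = f (mLift (pj y, pt t)) := rfl
  rw [evY_eq, h, evX_coe]
  congr 1
  change ((pj y : I1) : ℝ) * Real.cos (pt t : Th) = _
  rw [pj_coe h0 h1, pt_coe h2 h3]

theorem lift_norm (f : X) : ‖compL mLift f‖ ≤ ‖f‖ := by
  refine (ContinuousMap.norm_le _ (norm_nonneg _)).2 fun z => ?_
  exact ContinuousMap.norm_coe_le_norm f (mLift z)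

theorem evY_pj (h : Y) (y t : ℝ) : evY h (pj y : I1) t = evY h y t := by
  rw [evY_eq, evY_eq]
  congr 2
  unfold pj
  rw [Set.projIcc_val]

theorem J_ev (h : Y) (y t : ℝ) (h0 : 0 ≤ t) (h1 : t ≤ Real.pi / 2) :
    evY (intOp kJ mJ h) y t = ∫ s in (0 : ℝ)..t, evY h y s := by
  rw [evY_eq, intOp_apply]
  have e : ∫ u in (0 : ℝ)..1, kJ ((pj y, pt t), pj u) * h (mJ ((pj y, pt t), pj u))
      = ∫ u in (0 : ℝ)..1, t * evY h y (u * t) := by
    refine intervalIntegral.integral_congr fun u hu => ?_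
    rw [uIcc_of_le zero_le_one] at hu
    rw [evY_coe h]
    have e1 : kJ ((pj y, pt t), pj u) = t := pt_coe h0 h1
    have e2 : (((mJ ((pj y, pt t), pj u)).2 : Th) : ℝ) = u * t := by
      change ((pj u : I1) : ℝ) * ((pt t : Th) : ℝ) = _
      rw [pj_coe hu.1 hu.2, pt_coe h0 h1]
    have e3 : (mJ ((pj y, pt t), pj u)).1 = pj y := rfl
    rw [e1, e2, e3, evY_pj]
  rw [e, intervalIntegral.integral_const_mul]
  have := intervalIntegral.smul_integral_comp_mul_right (a := 0) (b := 1)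
    (fun s => evY h y s) t
  simp only [smul_eq_mul, zero_mul, one_mul] at this
  exact this

theorem K_ev (h : Y) (y t : ℝ) (h0 : 0 ≤ t) (h1 : t ≤ Real.pi / 2) :
    evY (intOp kK mK h) y t = ∫ s in t..(Real.pi / 2), evY h y s := by
  rw [evY_eq, intOp_apply]
  have e : ∫ u in (0 : ℝ)..1, kK ((pj y, pt t), pj u) * h (mK ((pj y, pt t), pj u))
      = ∫ u in (0 : ℝ)..1, (Real.pi / 2 - t) * evY h y (t + (Real.pi / 2 - t) * u) := by
    refine intervalIntegral.integral_congr fun u hu => ?_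
    rw [uIcc_of_le zero_le_one] at hu
    rw [evY_coe h]
    have e1 : kK ((pj y, pt t), pj u) = Real.pi / 2 - t := by
      change Real.pi / 2 - ((pt t : Th) : ℝ) = _
      rw [pt_coe h0 h1]
    have e2 : (((mK ((pj y, pt t), pj u)).2 : Th) : ℝ) = t + (Real.pi / 2 - t) * u := by
      change ((pt t : Th) : ℝ) + (Real.pi / 2 - ((pt t : Th) : ℝ)) * ((pj u : I1) : ℝ) = _
      rw [pj_coe hu.1 hu.2, pt_coe h0 h1]
    have e3 : (mK ((pj y, pt t), pj u)).1 = pj y := rfl
    rw [e1, e2, e3, evY_pj]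
  rw [e, intervalIntegral.integral_const_mul]
  have := intervalIntegral.smul_integral_comp_add_mul (a := 0) (b := 1)
    (fun s => evY h y s) (Real.pi / 2 - t) t
  simp only [smul_eq_mul, mul_zero, mul_one, add_zero, add_sub_cancel] at this
  exact this

theorem W_ev (h : Y) (y : ℝ) : evX (intOp kW mW h) y
    = ∫ s in (0 : ℝ)..(Real.pi / 2), Real.sin s ^ 2 * evY h y s := by
  rw [evX_eq, intOp_apply]
  have e : ∫ u in (0 : ℝ)..1, kW (pj y, pj u) * h (mW (pj y, pj u))
      = ∫ u in (0 : ℝ)..1, Real.pi / 2 * (Real.sin (u * (Real.pi / 2)) ^ 2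
        * evY h y (u * (Real.pi / 2))) := by
    refine intervalIntegral.integral_congr fun u hu => ?_
    rw [uIcc_of_le zero_le_one] at hu
    rw [evY_coe h]
    have e1 : kW (pj y, pj u) = Real.pi / 2 * Real.sin (u * (Real.pi / 2)) ^ 2 := by
      change Real.pi / 2 * Real.sin (((pj u : I1) : ℝ) * (Real.pi / 2)) ^ 2 = _
      rw [pj_coe hu.1 hu.2]
    have e2 : (((mW (pj y, pj u)).2 : Th) : ℝ) = u * (Real.pi / 2) := by
      change ((pj u : I1) : ℝ) * (Real.pi / 2) = _
      rw [pj_coe hu.1 hu.2]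
    have e3 : (mW (pj y, pj u)).1 = pj y := rfl
    rw [e1, e2, e3, evY_pj, mul_assoc]
  rw [e, intervalIntegral.integral_const_mul]
  have := intervalIntegral.smul_integral_comp_mul_right (a := 0) (b := 1)
    (fun s => Real.sin s ^ 2 * evY h y s) (Real.pi / 2)
  simpa using this

theorem b_ev (f : X) (x : ℝ) (h0 : 0 ≤ x) (h1 : x ≤ 1) :
    evX (intOp kb mb f) x = ∫ u in (0 : ℝ)..1, u * evX f (x * u) := by
  rw [evX_eq, intOp_apply]
  refine intervalIntegral.integral_congr fun u hu => ?_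
  rw [uIcc_of_le zero_le_one] at hu
  rw [evX_coe f]
  have e1 : kb (pj x, pj u) = u := pj_coe hu.1 hu.2
  have e2 : ((mb (pj x, pj u) : I1) : ℝ) = x * u := by
    change ((pj x : I1) : ℝ) * ((pj u : I1) : ℝ) = _
    rw [pj_coe hu.1 hu.2, pj_coe h0 h1]
  rw [e1, e2]

theorem Q_ev (f : X) (x : ℝ) (h0 : 0 ≤ x) (h1 : x ≤ 1) :
    evX (intOp kQ mQ f) x
      = ∫ p in (0 : ℝ)..(Real.pi / 2), Real.sin p ^ 3 * evX f (x * Real.sin p) := by
  rw [evX_eq, intOp_apply]
  have e : ∫ u in (0 : ℝ)..1, kQ (pj x, pj u) * f (mQ (pj x, pj u))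
      = ∫ u in (0 : ℝ)..1, Real.pi / 2 * (Real.sin (u * (Real.pi / 2)) ^ 3
        * evX f (x * Real.sin (u * (Real.pi / 2)))) := by
    refine intervalIntegral.integral_congr fun u hu => ?_
    rw [uIcc_of_le zero_le_one] at hu
    rw [evX_coe f]
    have e1 : kQ (pj x, pj u) = Real.pi / 2 * Real.sin (u * (Real.pi / 2)) ^ 3 := by
      change Real.pi / 2 * Real.sin (((pj u : I1) : ℝ) * (Real.pi / 2)) ^ 3 = _
      rw [pj_coe hu.1 hu.2]
    have e2 : ((mQ (pj x, pj u) : I1) : ℝ) = x * Real.sin (u * (Real.pi / 2)) := by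
      change ((pj x : I1) : ℝ) * Real.sin (((pj u : I1) : ℝ) * (Real.pi / 2)) = _
      rw [pj_coe hu.1 hu.2, pj_coe h0 h1]
    rw [e1, e2, mul_assoc]
  rw [e, intervalIntegral.integral_const_mul]
  have := intervalIntegral.smul_integral_comp_mul_right (a := 0) (b := 1)
    (fun p => Real.sin p ^ 3 * evX f (x * Real.sin p)) (Real.pi / 2)
  simpa using this

theorem S3_form (h : Y) (y t : ℝ) (h0 : 0 ≤ t) (h1 : t ≤ Real.pi / 2) :
    evY (intOp kS mJ h) y t = ∫ u in (0 : ℝ)..1,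
      u ^ 2 * Real.sinc (u * t) ^ 2 / Real.sinc t ^ 3 * evY h y (u * t) := by
  rw [evY_eq, intOp_apply]
  refine intervalIntegral.integral_congr fun u hu => ?_
  rw [uIcc_of_le zero_le_one] at hu
  rw [evY_coe h]
  have e1 : kS ((pj y, pt t), pj u) = u ^ 2 * Real.sinc (u * t) ^ 2 / Real.sinc t ^ 3 := by
    change ((pj u : I1) : ℝ) ^ 2 * Real.sinc (((pj u : I1) : ℝ) * ((pt t : Th) : ℝ)) ^ 2
      / Real.sinc ((pt t : Th) : ℝ) ^ 3 = _
    rw [pj_coe hu.1 hu.2, pt_coe h0 h1]
  have e2 : (((mJ ((pj y, pt t), pj u)).2 : Th) : ℝ) = u * t := by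
    change ((pj u : I1) : ℝ) * ((pt t : Th) : ℝ) = _
    rw [pj_coe hu.1 hu.2, pt_coe h0 h1]
  have e3 : (mJ ((pj y, pt t), pj u)).1 = pj y := rfl
  rw [e1, e2, e3, evY_pj]

theorem S3_ev (h : Y) (y t : ℝ) (h0 : 0 ≤ t) (h1 : t ≤ Real.pi / 2) :
    Real.sin t ^ 3 * evY (intOp kS mJ h) y t
      = ∫ s in (0 : ℝ)..t, Real.sin s ^ 2 * evY h y s := by
  rw [S3_form h y t h0 h1, ← intervalIntegral.integral_const_mul]
  have hp := sinc_pos_of_mem h0 h1
  have e : ∫ u in (0 : ℝ)..1, Real.sin t ^ 3 * (u ^ 2 * Real.sinc (u * t) ^ 2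
        / Real.sinc t ^ 3 * evY h y (u * t))
      = ∫ u in (0 : ℝ)..1, t * (Real.sin (u * t) ^ 2 * evY h y (u * t)) := by
    refine intervalIntegral.integral_congr fun u _ => ?_
    rw [← mul_sinc t, ← mul_sinc (u * t)]
    field_simp
  rw [e, intervalIntegral.integral_const_mul]
  have := intervalIntegral.smul_integral_comp_mul_right (a := 0) (b := 1)
    (fun s => Real.sin s ^ 2 * evY h y s) t
  simpa using this

/-- `∫_0^t sin² ≤ sin³ t` -/
theorem int_sin_sq_le {t : ℝ} (h0 : 0 ≤ t) (h1 : t ≤ Real.pi / 2) :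
    ∫ s in (0 : ℝ)..t, Real.sin s ^ 2 ≤ Real.sin t ^ 3 := by
  have hst : 0 ≤ Real.sin t :=
    Real.sin_nonneg_of_nonneg_of_le_pi h0 (by linarith [Real.pi_pos])
  by_cases hc : 1 / 3 ≤ Real.cos t
  · have e : ∫ s in (0 : ℝ)..t, 3 * Real.sin s ^ 2 * Real.cos s = Real.sin t ^ 3 := by
      have := intervalIntegral.integral_eq_sub_of_hasDerivAt (a := 0) (b := t)
        (f := fun s => Real.sin s ^ 3) (f' := fun s => 3 * Real.sin s ^ 2 * Real.cos s)
        (fun s _ => by
          refine ((Real.hasDerivAt_sin s).pow 3).congr_deriv ?_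
          simp) (by
          apply Continuous.intervalIntegrable
          fun_prop)
      rw [this]
      simp
    rw [← e]
    refine intervalIntegral.integral_mono_on h0 (by
        apply Continuous.intervalIntegrable
        fun_prop) (by
        apply Continuous.intervalIntegrable
        fun_prop) fun s hs => ?_
    have h2 : Real.cos t ≤ Real.cos s :=
      Real.cos_le_cos_of_nonneg_of_le_pi hs.1 (by linarith [Real.pi_pos]) hs.2
    have h3 : 0 ≤ Real.sin s ^ 2 := sq_nonneg _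
    nlinarith
  · push Not at hc
    have hct : 0 ≤ Real.cos t :=
      Real.cos_nonneg_of_neg_pi_div_two_le_of_le (by linarith [Real.pi_pos]) h1
    have h2 : 8 / 9 ≤ Real.sin t ^ 2 := by
      have := Real.sin_sq_add_cos_sq t
      nlinarith
    have h3 : (0.94 : ℝ) ≤ Real.sin t := by
      by_contra h
      push Not at h
      nlinarith
    have h4 : (0.8355 : ℝ) ≤ Real.sin t ^ 3 := by
      have : Real.sin t ^ 3 = Real.sin t ^ 2 * Real.sin t := by ring
      rw [this]
      nlinarith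
    have h5 : ∫ s in (0 : ℝ)..t, Real.sin s ^ 2 ≤ ∫ s in (0 : ℝ)..(Real.pi / 2),
        Real.sin s ^ 2 := by
      have hci : ∀ a b : ℝ, IntervalIntegrable (fun s : ℝ => Real.sin s ^ 2) volume a b := by
        intro a b
        apply Continuous.intervalIntegrable
        fun_prop
      rw [← intervalIntegral.integral_add_adjacent_intervals (hci 0 t)
        (hci t (Real.pi / 2))]
      have : 0 ≤ ∫ s in t..(Real.pi / 2), Real.sin s ^ 2 :=
        intervalIntegral.integral_nonneg h1 fun s _ => sq_nonneg _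
      linarith
    have h6 : ∫ s in (0 : ℝ)..(Real.pi / 2), Real.sin s ^ 2 = Real.pi / 4 := by
      rw [integral_sin_sq]
      simp
      ring
    have h7 := Real.pi_lt_d2
    linarith

theorem S3_norm (h : Y) : ‖intOp kS mJ h‖ ≤ ‖h‖ := by
  refine (ContinuousMap.norm_le _ (norm_nonneg _)).2 fun z => ?_
  have h0 := z.2.2.1
  have h1 := z.2.2.2
  have hp := sinc_pos_of_mem h0 h1
  rw [evY_coe, S3_form h z.1 z.2 h0 h1]
  have hk : ∀ u : ℝ, 0 ≤ u ^ 2 * Real.sinc (u * z.2) ^ 2 / Real.sinc z.2 ^ 3 := by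
    intro u
    positivity
  have hkc : Continuous (fun u : ℝ => u ^ 2 * Real.sinc (u * z.2) ^ 2
      / Real.sinc z.2 ^ 3) := by
    refine Continuous.div_const ?_ _
    exact (continuous_pow 2).mul ((Real.continuous_sinc.comp (by fun_prop)).pow 2)
  have hint : ∫ u in (0 : ℝ)..1, u ^ 2 * Real.sinc (u * z.2) ^ 2 / Real.sinc z.2 ^ 3
      ≤ 1 := by
    rcases eq_or_lt_of_le h0 with h2 | h2
    · rw [← h2]
      simp [integral_pow]
      norm_num
    · have e : ∫ u in (0 : ℝ)..1, u ^ 2 * Real.sinc (u * z.2) ^ 2 / Real.sinc z.2 ^ 3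
          = (∫ s in (0 : ℝ)..(z.2 : ℝ), Real.sin s ^ 2) / Real.sin z.2 ^ 3 := by
        have := intervalIntegral.smul_integral_comp_mul_right (a := 0) (b := 1)
          (fun s => Real.sin s ^ 2) (z.2 : ℝ)
        simp only [zero_mul, one_mul, smul_eq_mul] at this
        rw [← this, ← intervalIntegral.integral_const_mul,
          ← intervalIntegral.integral_div]
        refine intervalIntegral.integral_congr fun u _ => ?_
        rw [← mul_sinc (z.2 : ℝ), ← mul_sinc (u * (z.2 : ℝ))]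
        field_simp
      rw [e]
      have hs : 0 < Real.sin z.2 :=
        Real.sin_pos_of_pos_of_lt_pi h2 (by linarith [Real.pi_pos])
      rw [div_le_one (by positivity)]
      exact int_sin_sq_le h0 h1
  have hb : ∀ y t : ℝ, |evY h y t| ≤ ‖h‖ := fun y t => ContinuousMap.norm_coe_le_norm h _
  have hc : Continuous (fun u : ℝ => evY h z.1 (u * z.2)) :=
    (continuous_evY h).comp (continuous_const.prodMk (by fun_prop))
  calc ‖∫ u in (0 : ℝ)..1, u ^ 2 * Real.sinc (u * z.2) ^ 2 / Real.sinc z.2 ^ 3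
        * evY h z.1 (u * z.2)‖
      ≤ ∫ u in (0 : ℝ)..1, ‖u ^ 2 * Real.sinc (u * z.2) ^ 2 / Real.sinc z.2 ^ 3
        * evY h z.1 (u * z.2)‖ := intervalIntegral.norm_integral_le_integral_norm zero_le_one
    _ ≤ ∫ u in (0 : ℝ)..1, u ^ 2 * Real.sinc (u * z.2) ^ 2 / Real.sinc z.2 ^ 3 * ‖h‖ := by
        refine intervalIntegral.integral_mono_on zero_le_one
          ((hkc.mul hc).norm.intervalIntegrable _ _)
          ((hkc.mul continuous_const).intervalIntegrable _ _) fun u _ => ?_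
        rw [norm_mul, Real.norm_of_nonneg (hk u)]
        exact mul_le_mul_of_nonneg_left (hb _ _) (hk u)
    _ = (∫ u in (0 : ℝ)..1, u ^ 2 * Real.sinc (u * z.2) ^ 2 / Real.sinc z.2 ^ 3) * ‖h‖ := by
        rw [intervalIntegral.integral_mul_const]
    _ ≤ 1 * ‖h‖ := mul_le_mul_of_nonneg_right hint (norm_nonneg _)
    _ = ‖h‖ := one_mul _

/-- all operators -/
def ops : Ops where
  lift := compL mLift
  lift_ev := lift_ev
  lift_norm := lift_norm
  S3 := intOp kS mJ
  S3_ev := S3_ev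
  S3_norm := S3_norm
  J := intOp kJ mJ
  J_ev := J_ev
  K := intOp kK mK
  K_ev := K_ev
  W := intOp kW mW
  W_ev := W_ev
  b := intOp kb mb
  b_ev := b_ev
  Q := intOp kQ mQ
  Q_ev := Q_ev

/-! ### jet spaces -/

theorem isClosed_E (k : ℕ) : IsClosed (E k : Set (Fin (k + 1) → X)) := by
  have hs : (E k : Set (Fin (k + 1) → X)) = ⋂ (i : Fin k), ⋂ (a : ℝ), ⋂ (_ : 0 ≤ a),
      ⋂ (x : ℝ), ⋂ (_ : 0 ≤ x), ⋂ (_ : x ≤ 1),
      {u | evX (u i.castSucc) x - evX (u i.castSucc) (Real.exp (-a) * x)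
        = ∫ s in (0 : ℝ)..a, evX (u i.succ) (Real.exp (-s) * x)} := by
    ext u
    simp only [mem_iInter]
    exact Iff.rfl
  rw [hs]
  refine isClosed_iInter fun i => isClosed_iInter fun a => isClosed_iInter fun _ =>
    isClosed_iInter fun x => isClosed_iInter fun _ => isClosed_iInter fun _ => ?_
  have h1 : ∀ (j : Fin (k + 1)) (z : ℝ), Continuous (fun u : Fin (k + 1) → X =>
      evX (u j) z) := by
    intro j z
    exact (ContinuousEvalConst.continuous_eval_const (F := X) (pj z)).comp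
      (continuous_apply j)
  refine isClosed_eq ((h1 _ _).sub (h1 _ _)) ?_
  refine intervalIntegral.continuous_parametric_intervalIntegral_of_continuous' ?_ 0 a
  have h2 : Continuous (fun p : (Fin (k + 1) → X) × ℝ => (p.1 i.succ, pj (Real.exp (-p.2) * x))) :=
    ((continuous_apply _).comp continuous_fst).prodMk (continuous_pj.comp (by fun_prop))
  exact (ContinuousEval.continuous_eval (F := X)).comp h2

theorem evX_tau (a : ℝ) (f : X) {x : ℝ} (h0 : 0 ≤ x) (h1 : x ≤ 1) :
    evX (τX a f) x = evX f (Real.exp (-|a|) * x) := by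
  rw [evX_eq]
  change f (dil a (pj x)) = _
  rw [evX_coe f]
  congr 1
  change Real.exp (-|a|) * ((pj x : I1) : ℝ) = _
  rw [pj_coe h0 h1]

/-- the structure maps -/
def emaps : EMaps where
  complete := fun k => (isClosed_E k).completeSpace_coe
  drop := fun k => ContinuousLinearMap.codRestrict
    ((ContinuousLinearMap.pi fun i : Fin (k + 1) =>
      ContinuousLinearMap.proj (R := ℝ) (φ := fun _ : Fin (k + 2) => X) i.castSucc).comp
        (E (k + 1)).subtypeL) (E k) (by
      intro u i a ha x h0 h1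
      have := u.2 i.castSucc a ha x h0 h1
      rw [Fin.succ_castSucc] at this
      exact this)
  drop_ev := fun _ _ _ => rfl
  sh := fun k => ContinuousLinearMap.codRestrict
    ((ContinuousLinearMap.pi fun i : Fin (k + 1) =>
      ContinuousLinearMap.proj (R := ℝ) (φ := fun _ : Fin (k + 2) => X) i.succ).comp
        (E (k + 1)).subtypeL) (E k) (by
      intro u i a ha x h0 h1
      have := u.2 i.succ a ha x h0 h1
      rw [← Fin.succ_castSucc] at this
      exact this)
  sh_ev := fun _ _ _ => rfl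
  τE := fun k a => ContinuousLinearMap.codRestrict
    ((ContinuousLinearMap.pi fun i : Fin (k + 1) =>
      (τX a).comp (ContinuousLinearMap.proj (R := ℝ) (φ := fun _ : Fin (k + 1) => X) i)).comp
        (E k).subtypeL) (E k) (by
      intro u i a' ha x h0 h1
      change evX (τX a ((u : Fin (k + 1) → X) i.castSucc)) x
        - evX (τX a ((u : Fin (k + 1) → X) i.castSucc)) (Real.exp (-a') * x)
        = ∫ s in (0 : ℝ)..a', evX (τX a ((u : Fin (k + 1) → X) i.succ)) (Real.exp (-s) * x)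
      have hx : ∀ s : ℝ, 0 ≤ s → 0 ≤ Real.exp (-s) * x ∧ Real.exp (-s) * x ≤ 1 := by
        intro s hs
        refine ⟨mul_nonneg (Real.exp_pos _).le h0, ?_⟩
        calc Real.exp (-s) * x ≤ 1 * 1 :=
              mul_le_mul (Real.exp_le_one_iff.2 (by linarith)) h1 h0 zero_le_one
          _ = 1 := one_mul 1
      have hx' := hx |a| (abs_nonneg a)
      have := u.2 i a' ha (Real.exp (-|a|) * x) hx'.1 hx'.2
      rw [evX_tau a _ h0 h1, evX_tau a _ (hx a' ha).1 (hx a' ha).2]
      have e1 : Real.exp (-|a|) * (Real.exp (-a') * x)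
        = Real.exp (-a') * (Real.exp (-|a|) * x) := by ring
      rw [e1, this]
      refine intervalIntegral.integral_congr fun s hs => ?_
      rw [uIcc_of_le ha] at hs
      rw [evX_tau a _ (hx s hs.1).1 (hx s hs.1).2]
      congr 1
      ring)
  τE_ev := fun _ _ _ _ => rfl

theorem uni_ops : P_ops := ⟨⟨ops⟩, ⟨emaps⟩⟩

end

end Pool.Agent.W287.UniOps
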